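import Pool.Agent.Helper4.NS.Vertex

set_option autoImplicit false
set_option linter.unusedSectionVars false

/-!
MP_98699e_co, near-stars: cores of the colour classes and the global count.
-/

open Finset

noncomputable section

namespace Pool.Agent.Helper4.NS

variable {V : Type} [Fintype V] [DecidableEq V] {p : ℕ}

open Classical in
/-- the largest set of vertices inside which every vertex has at least `k` neighbours -/
def Core (H : SimpleGraph V) (k : ℕ) : Finset V :=
  univ.filter fun v => ∃ W : Finset V, v ∈ W ∧ ∀ w ∈ W, k ≤ #(W.filter fun z => H.Adj w z)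

open Classical in
theorem mem_Core {H : SimpleGraph V} {k : ℕ} {v : V} : v ∈ Core H k ↔
    ∃ W : Finset V, v ∈ W ∧ ∀ w ∈ W, k ≤ #(W.filter fun z => H.Adj w z) := by
  unfold Core
  rw [mem_filter]
  exact ⟨fun h => h.2, fun h => ⟨mem_univ v, h⟩⟩

open Classical in
theorem Core_deg (H : SimpleGraph V) (k : ℕ) : ∀ v ∈ Core H k,
    k ≤ #((Core H k).filter fun z => H.Adj v z) := by
  intro v hv
  obtain ⟨W, h1, h2⟩ := mem_Core.1 hv
  refine (h2 v h1).trans (card_le_card (filter_subset_filter _ ?_))
  intro w hw
  exact mem_Core.2 ⟨W, hw, h2⟩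

open Classical in
theorem degen_aux (H : SimpleGraph V) (k : ℕ) : ∀ (n : ℕ) (Y : Finset V), #(Y \ Core H k) = n →
    Core H k ⊆ Y →
    ∑ v ∈ Y \ Core H k, #(Y.filter fun z => H.Adj v z)
      ≤ 2 * ∑ v ∈ Y \ Core H k, min (k - 1) #((univ : Finset V).filter fun z => H.Adj v z) := by
  intro n
  induction n with
  | zero =>
    intro Y hn _
    rw [card_eq_zero.1 hn]
    simp
  | succ n ih =>
    intro Y hn hY
    set C := Core H k with hC
    obtain ⟨y, hyY, hyk⟩ : ∃ y ∈ Y, #(Y.filter fun z => H.Adj y z) < k := by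
      by_contra hc
      push Not at hc
      have h1 : Y ⊆ C := fun w hw => mem_Core.2 ⟨Y, hw, hc⟩
      rw [sdiff_eq_empty_iff_subset.2 h1] at hn
      simp at hn
    have hyC : y ∉ C := by
      intro h
      have h1 := Core_deg H k y h
      exact absurd (lt_of_le_of_lt (h1.trans (card_le_card
        (filter_subset_filter (fun z => H.Adj y z) hY))) hyk) (lt_irrefl k)
    have hyYC : y ∈ Y \ C := mem_sdiff.2 ⟨hyY, hyC⟩
    have hYe : (Y.erase y) \ C = (Y \ C).erase y := by
      ext w
      simp only [mem_sdiff, mem_erase]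
      tauto
    have hCe : C ⊆ Y.erase y := by
      intro w hw
      refine mem_erase.2 ⟨?_, hY hw⟩
      rintro rfl
      exact hyC hw
    have h1 := ih (Y.erase y) (by rw [hYe, card_erase_of_mem hyYC, hn]; rfl) hCe
    rw [hYe] at h1
    rw [← add_sum_erase _ _ hyYC, ← add_sum_erase (Y \ C)
      (fun v => min (k - 1) #((univ : Finset V).filter fun z => H.Adj v z)) hyYC]
    have h2 : ∀ v, #(Y.filter fun z => H.Adj v z)
        = #((Y.erase y).filter fun z => H.Adj v z) + if H.Adj v y then 1 else 0 := by
      intro v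
      rw [filter_erase]
      split_ifs with h
      · exact (card_erase_add_one (mem_filter.2 ⟨hyY, h⟩)).symm
      · rw [erase_eq_of_notMem]
        · rfl
        · intro h'
          exact h (mem_filter.1 h').2
    have h3 : ∑ v ∈ (Y \ C).erase y, #(Y.filter fun z => H.Adj v z)
        = ∑ v ∈ (Y \ C).erase y, #((Y.erase y).filter fun z => H.Adj v z)
          + ∑ v ∈ (Y \ C).erase y, if H.Adj v y then 1 else 0 := by
      rw [← sum_add_distrib]
      exact sum_congr rfl fun v _ => h2 v
    have h4 : ∑ v ∈ (Y \ C).erase y, (if H.Adj v y then 1 else 0)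
        ≤ #(Y.filter fun z => H.Adj y z) := by
      rw [← card_filter]
      apply card_le_card
      intro w hw
      rw [mem_filter, mem_erase, mem_sdiff] at hw
      exact mem_filter.2 ⟨hw.1.2.1, hw.2.symm⟩
    have h5 : #(Y.filter fun z => H.Adj y z)
        ≤ #((univ : Finset V).filter fun z => H.Adj y z) :=
      card_le_card (filter_subset_filter _ (subset_univ _))
    omega

open Classical in
theorem degen (H : SimpleGraph V) (k : ℕ) :
    ∑ v : V, (if v ∈ Core H k then (0 : ℤ) else
      (#((univ : Finset V).filter fun z => H.Adj v z) : ℤ)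
        - 2 * (min (k - 1) #((univ : Finset V).filter fun z => H.Adj v z) : ℕ)) ≤ 0 := by
  have h1 := degen_aux H k _ univ rfl (subset_univ _)
  rw [← sum_subset (subset_univ (univ \ Core H k))]
  · rw [sum_congr rfl (g := fun v => (#((univ : Finset V).filter fun z => H.Adj v z) : ℤ)
        - 2 * (min (k - 1) #((univ : Finset V).filter fun z => H.Adj v z) : ℕ))]
    · rw [sum_sub_distrib, ← mul_sum]
      have h2 : ((∑ v ∈ univ \ Core H k, #((univ : Finset V).filter fun z => H.Adj v z) : ℕ) : ℤ)
          ≤ ((2 * ∑ v ∈ univ \ Core H k,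
            min (k - 1) #((univ : Finset V).filter fun z => H.Adj v z) : ℕ) : ℤ) := by
        exact_mod_cast h1
      push_cast at h2 ⊢
      linarith
    · intro v hv
      rw [if_neg (mem_sdiff.1 hv).2]
  · intro v _ hv
    rw [mem_sdiff] at hv
    push Not at hv
    rw [if_pos (hv (mem_univ v))]

/-- the class of the colour `a` -/
def cls (G : SimpleGraph V) (c : Sym2 V → ZMod p) (a : ZMod p) : SimpleGraph V where
  Adj v w := G.Adj v w ∧ c s(v, w) = a
  symm := ⟨fun v w h => ⟨h.1.symm, by rw [Sym2.eq_swap]; exact h.2⟩⟩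
  loopless := ⟨fun v h => G.loopless.irrefl v h.1⟩

/-- the global count -/
theorem count [Fact p.Prime] [Nonempty V] (G : SimpleGraph V) [DecidableRel G.Adj]
    (c : Sym2 V → ZMod p) (k l : ℕ)
    (h : ∀ v, VH k l (G.neighborFinset v) (fun w => c s(v, w))
      (fun a => v ∈ Core (cls G c a) k)) : False := by
  classical
  have h1 : 0 < ∑ v : V, ∑ a : ZMod p,
      ff k (dg (fun w => c s(v, w)) (G.neighborFinset v)) (fun a => v ∈ Core (cls G c a) k) a :=
    sum_pos (fun v _ => (h v).main) univ_nonempty
  rw [sum_comm] at h1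
  have h2 : ∑ a : ZMod p, ∑ v : V,
      ff k (dg (fun w => c s(v, w)) (G.neighborFinset v)) (fun a => v ∈ Core (cls G c a) k) a
        ≤ 0 := by
    apply sum_nonpos
    intro a _
    refine le_trans (le_of_eq ?_) (degen (cls G c a) k)
    refine sum_congr rfl fun v _ => ?_
    have h3 : dg (fun w => c s(v, w)) (G.neighborFinset v) a
        = #((univ : Finset V).filter fun z => (cls G c a).Adj v z) := by
      unfold dg
      congr 1
      ext w
      simp only [mem_filter, SimpleGraph.mem_neighborFinset, mem_univ, true_and]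
      rfl
    unfold ff
    rw [h3]
    by_cases h4 : v ∈ Core (cls G c a) k
    · rw [if_pos h4, if_pos h4]
    · rw [if_neg h4, if_neg h4]
  omega

end Pool.Agent.Helper4.NS
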