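import Mathlib

set_option autoImplicit false
set_option linter.unusedSectionVars false

/-!
MP_98699e_co, near-stars: the sums of `l` colours (Cauchy–Davenport).
-/

open Finset
open scoped Pointwise

namespace Pool.Agent.Helper4.NS

variable {V : Type} [DecidableEq V] {p : ℕ}

/-- the sums of the colours of `l` elements of `A` -/
def Att (χ : V → ZMod p) (l : ℕ) (A : Finset V) : Finset (ZMod p) :=
  (A.powersetCard l).image fun B => ∑ w ∈ B, χ w

/-- number of elements of `A` of colour `a` -/
def dg (χ : V → ZMod p) (A : Finset V) (a : ZMod p) : ℕ := #(A.filter (fun w => χ w = a))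

/-- truncated number of elements -/
def tr [NeZero p] (χ : V → ZMod p) (l : ℕ) (A : Finset V) : ℕ := ∑ a : ZMod p, min (dg χ A a) l

theorem mem_Att {χ : V → ZMod p} {l : ℕ} {A : Finset V} {s : ZMod p} :
    s ∈ Att χ l A ↔ ∃ B, B ⊆ A ∧ #B = l ∧ ∑ w ∈ B, χ w = s := by
  unfold Att
  rw [mem_image]
  constructor
  · rintro ⟨B, hB, rfl⟩
    rw [mem_powersetCard] at hB
    exact ⟨B, hB.1, hB.2, rfl⟩
  · rintro ⟨B, h1, h2, h3⟩
    exact ⟨B, mem_powersetCard.2 ⟨h1, h2⟩, h3⟩

theorem dg_mono (χ : V → ZMod p) {A A' : Finset V} (h : A ⊆ A') (a : ZMod p) :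
    dg χ A a ≤ dg χ A' a := card_le_card (filter_subset_filter _ h)

theorem sum_dg [NeZero p] (χ : V → ZMod p) (A : Finset V) : ∑ a : ZMod p, dg χ A a = #A := by
  unfold dg
  exact (card_eq_sum_card_fiberwise (f := χ) (t := univ) (fun _ _ => mem_coe.2 (mem_univ _))).symm

theorem att_full [NeZero p] {χ : V → ZMod p} {l : ℕ} {A : Finset V} (h : p ≤ #(Att χ l A))
    (s : ZMod p) : ∃ B, B ⊆ A ∧ #B = l ∧ ∑ w ∈ B, χ w = s := by
  have h1 : Att χ l A = univ := by
    apply eq_univ_of_card
    rw [ZMod.card]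
    refine le_antisymm ?_ h
    have := card_le_univ (Att χ l A)
    rwa [ZMod.card] at this
  exact mem_Att.1 (h1 ▸ mem_univ s)

/-- the number of sums of `l` elements -/
theorem att_card [Fact p.Prime] (χ : V → ZMod p) : ∀ (l : ℕ) (A : Finset V), l ≤ tr χ l A →
    min p (tr χ l A + 1 - l) ≤ #(Att χ l A) := by
  have hp : p.Prime := Fact.out
  intro l
  induction l with
  | zero =>
    intro A _
    have h1 : (0 : ZMod p) ∈ Att χ 0 A := mem_Att.2 ⟨∅, empty_subset A, rfl, sum_empty⟩
    have h2 : 0 < #(Att χ 0 A) := card_pos.2 ⟨0, h1⟩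
    have h3 : tr χ 0 A = 0 := by
      unfold tr
      simp
    rw [h3]
    have : min p (0 + 1 - 0) ≤ 1 := min_le_right _ _
    omega
  | succ l ih =>
    intro A hA
    -- the set of colours
    obtain ⟨C, hC1, hC2, hC3⟩ : ∃ C : Finset (ZMod p), (∀ a ∈ C, 1 ≤ dg χ A a) ∧
        (∀ a, l + 1 ≤ dg χ A a → a ∈ C) ∧ l + #C ≤ tr χ (l + 1) A ∧ C.Nonempty := by
      by_cases hH : ∃ a, l + 1 ≤ dg χ A a
      · refine ⟨univ.filter (fun a => l + 1 ≤ dg χ A a), ?_, ?_, ?_, ?_⟩
        · intro a ha
          have := (mem_filter.1 ha).2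
          omega
        · intro a ha
          exact mem_filter.2 ⟨mem_univ a, ha⟩
        · obtain ⟨a0, ha0⟩ := hH
          have h1 : ∑ a ∈ univ.filter (fun a => l + 1 ≤ dg χ A a), (l + 1) ≤ tr χ (l + 1) A := by
            unfold tr
            rw [sum_filter]
            refine sum_le_sum fun a _ => ?_
            split_ifs with h
            · exact (min_eq_right h).ge
            · exact Nat.zero_le _
          rw [sum_const, smul_eq_mul] at h1
          have h2 : 1 ≤ #(univ.filter (fun a => l + 1 ≤ dg χ A a)) :=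
            card_pos.2 ⟨a0, mem_filter.2 ⟨mem_univ a0, ha0⟩⟩
          nlinarith
        · obtain ⟨a0, ha0⟩ := hH
          exact ⟨a0, mem_filter.2 ⟨mem_univ a0, ha0⟩⟩
      · push Not at hH
        have h1 : ∃ a, 1 ≤ dg χ A a := by
          by_contra h2
          push Not at h2
          have h3 : tr χ (l + 1) A = 0 := by
            unfold tr
            apply sum_eq_zero
            intro a _
            have := h2 a
            have : dg χ A a = 0 := by omega
            rw [this, Nat.zero_min]
          omega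
        obtain ⟨a0, ha0⟩ := h1
        refine ⟨{a0}, ?_, ?_, ?_, singleton_nonempty a0⟩
        · intro a ha
          rw [mem_singleton.1 ha]
          exact ha0
        · intro a ha
          have := hH a
          omega
        · rw [card_singleton]
          exact hA
    obtain ⟨hC3, hCne⟩ := hC3
    -- representatives
    have hrep : ∀ a, ∃ w, a ∈ C → w ∈ A ∧ χ w = a := by
      intro a
      by_cases ha : a ∈ C
      · obtain ⟨w, hw⟩ := card_pos.1 (hC1 a ha)
        rw [mem_filter] at hw
        exact ⟨w, fun _ => hw⟩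
      · by_cases hV : Nonempty V
        · exact ⟨hV.some, fun h => absurd h ha⟩
        · exfalso
          obtain ⟨b, hb⟩ := hCne
          obtain ⟨w, _⟩ := card_pos.1 (hC1 b hb)
          exact hV ⟨w⟩
    choose g hg using hrep
    set R := C.image g with hR
    have hRA : R ⊆ A := by
      intro w hw
      obtain ⟨a, ha, rfl⟩ := mem_image.1 hw
      exact (hg a ha).1
    have hχg : ∀ a ∈ C, χ (g a) = a := fun a ha => (hg a ha).2
    have hgR : ∀ a ∈ C, (A \ R).filter (fun w => χ w = a)
        = (A.filter (fun w => χ w = a)).erase (g a) := by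
      intro a ha
      ext w
      simp only [mem_filter, mem_sdiff, mem_erase]
      constructor
      · rintro ⟨⟨h1, h2⟩, h3⟩
        refine ⟨?_, h1, h3⟩
        rintro rfl
        exact h2 (mem_image_of_mem g ha)
      · rintro ⟨h1, h2, h3⟩
        refine ⟨⟨h2, ?_⟩, h3⟩
        intro h4
        obtain ⟨b, hb, rfl⟩ := mem_image.1 h4
        rw [hχg b hb] at h3
        rw [h3] at h1
        exact h1 rfl
    have hgR' : ∀ a, a ∉ C → (A \ R).filter (fun w => χ w = a)
        = A.filter (fun w => χ w = a) := by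
      intro a ha
      ext w
      simp only [mem_filter, mem_sdiff]
      constructor
      · rintro ⟨⟨h1, h2⟩, h3⟩
        exact ⟨h1, h3⟩
      · rintro ⟨h2, h3⟩
        refine ⟨⟨h2, ?_⟩, h3⟩
        intro h4
        obtain ⟨b, hb, rfl⟩ := mem_image.1 h4
        rw [hχg b hb] at h3
        rw [h3] at hb
        exact ha hb
    have htr : tr χ l (A \ R) + #C = tr χ (l + 1) A := by
      unfold tr
      have h1 : #C = ∑ a : ZMod p, if a ∈ C then 1 else 0 := by
        rw [← sum_filter, filter_mem_eq_inter, univ_inter, card_eq_sum_ones]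
      rw [h1, ← sum_add_distrib]
      refine sum_congr rfl fun a _ => ?_
      by_cases ha : a ∈ C
      · have h2 : dg χ (A \ R) a = dg χ A a - 1 := by
          unfold dg
          rw [hgR a ha, card_erase_of_mem]
          exact mem_filter.2 ⟨(hg a ha).1, hχg a ha⟩
        have h3 := hC1 a ha
        rw [h2, if_pos ha]
        omega
      · have h2 : dg χ (A \ R) a = dg χ A a := by
          unfold dg
          rw [hgR' a ha]
        have h3 : dg χ A a ≤ l := by
          by_contra h4
          exact ha (hC2 a (by omega))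
        rw [h2, if_neg ha]
        omega
    have h4 := ih (A \ R) (by omega)
    have hne : (Att χ l (A \ R)).Nonempty := by
      rw [← card_pos]
      have := hp.pos
      omega
    have h5 := ZMod.cauchy_davenport hp hCne hne
    have h6 : C + Att χ l (A \ R) ⊆ Att χ (l + 1) A := by
      intro s hs
      obtain ⟨a, ha, b, hb, rfl⟩ := mem_add.1 hs
      obtain ⟨B, hB1, hB2, hB3⟩ := mem_Att.1 hb
      have hgB : g a ∉ B := by
        intro h
        exact (mem_sdiff.1 (hB1 h)).2 (mem_image_of_mem g ha)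
      refine mem_Att.2 ⟨insert (g a) B, ?_, ?_, ?_⟩
      · intro w hw
        rcases mem_insert.1 hw with rfl | hw
        · exact (hg a ha).1
        · exact (mem_sdiff.1 (hB1 hw)).1
      · rw [card_insert_of_notMem hgB, hB2]
      · rw [sum_insert hgB, hχg a ha, hB3]
    have h7 := card_le_card h6
    have h8 : 1 ≤ #C := card_pos.2 hCne
    omega

/-! ### pairs -/

/-- `W` is the union of `q` disjoint pairs of elements whose colours differ from `a0` and are
neither equal nor opposite with respect to `a0` -/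
inductive PF (χ : V → ZMod p) (a0 : ZMod p) : ℕ → Finset V → Prop
  | nil : PF χ a0 0 ∅
  | cons (q : ℕ) (W : Finset V) (w w' : V) : w ∉ W → w' ∉ W → w ≠ w' → χ w ≠ a0 → χ w' ≠ a0 →
      χ w ≠ χ w' → χ w + χ w' ≠ a0 + a0 → PF χ a0 q W → PF χ a0 (q + 1) (insert w (insert w' W))

theorem PF.card {χ : V → ZMod p} {a0 : ZMod p} {q : ℕ} {W : Finset V} (h : PF χ a0 q W) :
    #W = 2 * q := by
  induction h with
  | nil => rfl
  | cons q W w w' h1 h2 h3 _ _ _ _ _ ih =>
    rw [card_insert_of_notMem, card_insert_of_notMem h2, ih]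
    · ring
    · rw [mem_insert]
      push Not
      exact ⟨h3, h1⟩

theorem PF.col {χ : V → ZMod p} {a0 : ZMod p} {q : ℕ} {W : Finset V} (h : PF χ a0 q W) :
    ∀ x ∈ W, χ x ≠ a0 := by
  induction h with
  | nil => intro x hx; exact absurd hx (notMem_empty x)
  | cons q W y y' _ _ _ g1 g2 _ _ _ ih =>
    intro x hx
    rcases mem_insert.1 hx with rfl | hx
    · exact g1
    · rcases mem_insert.1 hx with rfl | hx
      · exact g2
      · exact ih x hx

/-- pairs exist, or few pairs cover all but one class -/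
theorem pf_exists (χ : V → ZMod p) (a0 : ZMod p) (M : Finset V) (hM : ∀ w ∈ M, χ w ≠ a0) :
    ∀ q : ℕ, (∃ W, W ⊆ M ∧ PF χ a0 q W) ∨ ∃ W q', W ⊆ M ∧ q' < q ∧ PF χ a0 q' W ∧
      ∀ w ∈ M \ W, ∀ w' ∈ M \ W, χ w = χ w' ∨ χ w + χ w' = a0 + a0 := by
  intro q
  induction q with
  | zero => exact Or.inl ⟨∅, empty_subset M, PF.nil⟩
  | succ q ih =>
    rcases ih with ⟨W, hW, hPF⟩ | ⟨W, q', h1, h2, h3, h4⟩
    · by_cases hgood : ∀ w ∈ M \ W, ∀ w' ∈ M \ W, χ w = χ w' ∨ χ w + χ w' = a0 + a0
      · exact Or.inr ⟨W, q, hW, Nat.lt_succ_self q, hPF, hgood⟩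
      · push Not at hgood
        obtain ⟨w, hw, w', hw', h5, h6⟩ := hgood
        rw [mem_sdiff] at hw hw'
        left
        refine ⟨insert w (insert w' W), ?_, PF.cons q W w w' hw.2 hw'.2 ?_ (hM w hw.1)
          (hM w' hw'.1) h5 h6 hPF⟩
        · intro x hx
          rcases mem_insert.1 hx with rfl | hx
          · exact hw.1
          · rcases mem_insert.1 hx with rfl | hx
            · exact hw'.1
            · exact hW hx
        · rintro rfl
          exact h5 rfl
    · exact Or.inr ⟨W, q', h1, by omega, h3, h4⟩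

/-- one pair gives three more sums -/
theorem att_pair [Fact p.Prime] (χ : V → ZMod p) (a0 : ZMod p) (l : ℕ) (A : Finset V)
    (w w' z z' : V) (hne : (Att χ l A).Nonempty) (hwA : w ∉ A) (hw'A : w' ∉ A) (hzA : z ∉ A)
    (hz'A : z' ∉ A) (hww : w ≠ w') (hwz : w ≠ z) (hw'z : w' ≠ z)
    (hzz : z ≠ z') (hz : χ z = a0) (hz' : χ z' = a0) (h1 : χ w ≠ a0)
    (h2 : χ w' ≠ a0) (h3 : χ w ≠ χ w') (h4 : χ w + χ w' ≠ a0 + a0) :
    min p (#(Att χ l A) + 3)
      ≤ #(Att χ (l + 2) (insert z (insert z' (insert w (insert w' A))))) := by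
  have hp : p.Prime := Fact.out
  set Q : Finset (ZMod p) := {a0 + a0, a0 + χ w, a0 + χ w', χ w + χ w'} with hQ
  have hQc : #Q = 4 := by
    rw [hQ, card_insert_of_notMem, card_insert_of_notMem, card_insert_of_notMem,
      card_singleton]
    · rw [mem_singleton]
      intro h
      exact h1 (add_right_cancel h).symm
    · rw [mem_insert, mem_singleton]
      rintro (h | h)
      · exact h3 (add_left_cancel h)
      · rw [add_comm (χ w) (χ w')] at h
        exact h2 (add_right_cancel h).symm
    · rw [mem_insert, mem_insert, mem_singleton]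
      rintro (h | h | h)
      · exact h1 (add_left_cancel h).symm
      · exact h2 (add_left_cancel h).symm
      · exact h4 h.symm
  have hQne : Q.Nonempty := ⟨a0 + a0, mem_insert_self _ _⟩
  have h5 := ZMod.cauchy_davenport hp hQne hne
  have pick : ∀ x y : V, x ≠ y → x ∉ A → y ∉ A →
      x ∈ insert z (insert z' (insert w (insert w' A))) →
      y ∈ insert z (insert z' (insert w (insert w' A))) → ∀ b ∈ Att χ l A,
      χ x + χ y + b ∈ Att χ (l + 2) (insert z (insert z' (insert w (insert w' A)))) := by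
    intro x y hxy hx hy hxm hym b hb
    obtain ⟨B, hB1, hB2, hB3⟩ := mem_Att.1 hb
    have hxB : x ∉ B := fun h => hx (hB1 h)
    have hyB : y ∉ B := fun h => hy (hB1 h)
    have hxB' : x ∉ insert y B := by
      rw [mem_insert]
      push Not
      exact ⟨hxy, hxB⟩
    refine mem_Att.2 ⟨insert x (insert y B), ?_, ?_, ?_⟩
    · intro v hv
      rcases mem_insert.1 hv with rfl | hv
      · exact hxm
      · rcases mem_insert.1 hv with rfl | hv
        · exact hym
        · exact mem_insert_of_mem (mem_insert_of_mem (mem_insert_of_mem (mem_insert_of_mem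
            (hB1 hv))))
    · rw [card_insert_of_notMem hxB', card_insert_of_notMem hyB, hB2]
    · rw [sum_insert hxB', sum_insert hyB, hB3]
      ring
  have m1 : z ∈ insert z (insert z' (insert w (insert w' A))) := mem_insert_self _ _
  have m2 : z' ∈ insert z (insert z' (insert w (insert w' A))) :=
    mem_insert_of_mem (mem_insert_self _ _)
  have m3 : w ∈ insert z (insert z' (insert w (insert w' A))) :=
    mem_insert_of_mem (mem_insert_of_mem (mem_insert_self _ _))
  have m4 : w' ∈ insert z (insert z' (insert w (insert w' A))) :=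
    mem_insert_of_mem (mem_insert_of_mem (mem_insert_of_mem (mem_insert_self _ _)))
  have h6 : Q + Att χ l A
      ⊆ Att χ (l + 2) (insert z (insert z' (insert w (insert w' A)))) := by
    intro s hs
    obtain ⟨a, ha, b, hb, rfl⟩ := mem_add.1 hs
    rw [hQ, mem_insert, mem_insert, mem_insert, mem_singleton] at ha
    rcases ha with rfl | rfl | rfl | rfl
    · have := pick z z' hzz hzA hz'A m1 m2 b hb
      rwa [hz, hz'] at this
    · have := pick z w hwz.symm hzA hwA m1 m3 b hb
      rwa [hz] at this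
    · have := pick z w' hw'z.symm hzA hw'A m1 m4 b hb
      rwa [hz] at this
    · exact pick w w' hww hwA hw'A m3 m4 b hb
  have h7 := card_le_card h6
  omega

/-- `q` pairs give `3 q` more sums -/
theorem att_pairs [Fact p.Prime] (χ : V → ZMod p) (a0 : ZMod p) (l : ℕ) (A : Finset V)
    (hne : (Att χ l A).Nonempty) {q : ℕ} {W : Finset V} (hW : PF χ a0 q W) :
    ∀ Z : Finset V, #Z = 2 * q → (∀ z ∈ Z, χ z = a0) → Disjoint Z A → Disjoint W A →
      min p (#(Att χ l A) + 3 * q) ≤ #(Att χ (l + 2 * q) (A ∪ W ∪ Z)) := by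
  have hp : p.Prime := Fact.out
  induction hW with
  | nil =>
    intro Z hZ _ _ _
    have : Z = ∅ := card_eq_zero.1 (by rw [hZ])
    rw [this]
    simp
  | cons q W w w' h1 h2 h3 h4 h5 h6 h7 hPF ih =>
    intro Z hZ hZc hZA hWA
    obtain ⟨z, hz⟩ : Z.Nonempty := card_pos.1 (by omega)
    obtain ⟨z', hz'⟩ : (Z.erase z).Nonempty := card_pos.1 (by
      rw [card_erase_of_mem hz]; omega)
    set Z1 := (Z.erase z).erase z' with hZ1
    have hZ1c : #Z1 = 2 * q := by
      rw [hZ1, card_erase_of_mem hz', card_erase_of_mem hz]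
      omega
    have hz'Z : z' ∈ Z := mem_of_mem_erase hz'
    have hz'z : z' ≠ z := (mem_erase.1 hz').1
    have hZ1Z : Z1 ⊆ Z := (erase_subset _ _).trans (erase_subset _ _)
    have hWA' : Disjoint W A := disjoint_of_subset_left
      ((subset_insert _ _).trans (subset_insert _ _)) hWA
    have h8 := ih Z1 hZ1c (fun x hx => hZc x (hZ1Z hx)) (disjoint_of_subset_left hZ1Z hZA) hWA'
    have hne1 : (Att χ (l + 2 * q) (A ∪ W ∪ Z1)).Nonempty := by
      rw [← card_pos]
      have h9 : 0 < #(Att χ l A) := card_pos.2 hne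
      have := hp.pos
      omega
    have hWcol := hPF.col
    have hwins : w ∈ insert w (insert w' W) := mem_insert_self _ _
    have hw'ins : w' ∈ insert w (insert w' W) := mem_insert_of_mem (mem_insert_self _ _)
    have hwA : w ∉ A := fun h => disjoint_left.1 hWA hwins h
    have hw'A : w' ∉ A := fun h => disjoint_left.1 hWA hw'ins h
    have hzA : z ∉ A := fun h => disjoint_left.1 hZA hz h
    have hz'A : z' ∉ A := fun h => disjoint_left.1 hZA hz'Z h
    have hcz := hZc z hz
    have hcz' := hZc z' hz'Z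
    have hwZ1 : w ∉ Z1 := fun h => h4 (hZc w (hZ1Z h))
    have hw'Z1 : w' ∉ Z1 := fun h => h5 (hZc w' (hZ1Z h))
    have hwz : w ≠ z := fun h => h4 (h ▸ hcz)
    have hw'z : w' ≠ z := fun h => h5 (h ▸ hcz)
    have hzW : z ∉ W := fun h => hWcol z h hcz
    have hz'W : z' ∉ W := fun h => hWcol z' h hcz'
    have hzZ1 : z ∉ Z1 := fun h => (mem_erase.1 (mem_of_mem_erase h)).1 rfl
    have hz'Z1 : z' ∉ Z1 := fun h => (mem_erase.1 h).1 rfl
    have h9 := att_pair χ a0 (l + 2 * q) (A ∪ W ∪ Z1) w w' z z' hne1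
      (by rw [mem_union, mem_union]; push Not; exact ⟨⟨hwA, h1⟩, hwZ1⟩)
      (by rw [mem_union, mem_union]; push Not; exact ⟨⟨hw'A, h2⟩, hw'Z1⟩)
      (by rw [mem_union, mem_union]; push Not; exact ⟨⟨hzA, hzW⟩, hzZ1⟩)
      (by rw [mem_union, mem_union]; push Not; exact ⟨⟨hz'A, hz'W⟩, hz'Z1⟩)
      h3 hwz hw'z hz'z.symm hcz hcz' h4 h5 h6 h7
    have h10 : insert z (insert z' (insert w (insert w' (A ∪ W ∪ Z1))))
        = A ∪ insert w (insert w' W) ∪ Z := by
      ext x
      simp only [mem_insert, mem_union, hZ1, mem_erase]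
      constructor
      · rintro (h | h | h | h | (h | h) | h)
        · exact Or.inr (h ▸ hz)
        · exact Or.inr (h ▸ hz'Z)
        · exact Or.inl (Or.inr (Or.inl h))
        · exact Or.inl (Or.inr (Or.inr (Or.inl h)))
        · exact Or.inl (Or.inl h)
        · exact Or.inl (Or.inr (Or.inr (Or.inr h)))
        · exact Or.inr h.2.2
      · rintro ((h | h | h | h) | h)
        · exact Or.inr (Or.inr (Or.inr (Or.inr (Or.inl (Or.inl h)))))
        · exact Or.inr (Or.inr (Or.inl h))
        · exact Or.inr (Or.inr (Or.inr (Or.inl h)))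
        · exact Or.inr (Or.inr (Or.inr (Or.inr (Or.inl (Or.inr h)))))
        · by_cases e1 : x = z
          · exact Or.inl e1
          · by_cases e2 : x = z'
            · exact Or.inr (Or.inl e2)
            · exact Or.inr (Or.inr (Or.inr (Or.inr (Or.inr ⟨e2, e1, h⟩))))
    rw [h10] at h9
    have h11 : l + 2 * (q + 1) = l + 2 * q + 2 := by ring
    rw [h11]
    omega

end Pool.Agent.Helper4.NS
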