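import Pool.Agent.Helper4.NS.Degen
import Pool.Agent.Helper32.ZS.MONO

set_option autoImplicit false
set_option linter.unusedSectionVars false

/-!
MP_98699e_co, near-stars: the tree without its leaves at the centre, and the extension of a
placement of this tree to the leaves.
-/

open Finset

noncomputable section

namespace Pool.Agent.Helper4.NS

variable {τ : Type} [Fintype τ] [DecidableEq τ]

/-- the tree without the leaves at `x` is connected -/
theorem tree_conn (T : SimpleGraph τ) (hT : T.IsTree) (x : τ) (L : Finset τ)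
    (hL : ∀ y ∈ L, T.Adj x y ∧ ∀ z, T.Adj y z → z = x) :
    ∀ z ∈ univ \ L, Relation.ReflTransGen (ZS.code_A T (univ \ L)) x z := by
  have hx : x ∉ L := fun h => T.loopless.irrefl x (hL x h).1
  have key : ∀ z, Relation.ReflTransGen T.Adj x z → z ∉ L →
      Relation.ReflTransGen (ZS.code_A T (univ \ L)) x z := by
    intro z hz
    induction hz with
    | refl => exact fun _ => Relation.ReflTransGen.refl
    | @tail b d _ hbd ih =>
      intro hd
      by_cases hb : b ∈ L
      · rw [(hL b hb).2 d hbd]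
      · exact (ih hb).tail ⟨mem_sdiff.2 ⟨mem_univ b, hb⟩, mem_sdiff.2 ⟨mem_univ d, hd⟩, hbd⟩
  intro z hz
  have hc : T.Reachable x z := hT.1.preconnected x z
  rw [SimpleGraph.reachable_iff_reflTransGen] at hc
  exact key z hc (mem_sdiff.1 hz).2

theorem tree_codes (T : SimpleGraph τ) (hT : T.IsTree) (x : τ) (L : Finset τ)
    (hL : ∀ y ∈ L, T.Adj x y ∧ ∀ z, T.Adj y z → z = x) :
    ∃ t, ZS.Codes T t (univ \ L) x := by
  have hx : x ∉ L := fun h => T.loopless.irrefl x (hL x h).1
  exact ZS.code_main T hT.isAcyclic _ (univ \ L) x le_rfl (mem_sdiff.2 ⟨mem_univ x, hx⟩)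
    (tree_conn T hT x L hL)

/-- the edges which are not edges to the leaves `L` of `x` -/
def inn (T : SimpleGraph τ) [DecidableRel T.Adj] (x : τ) (L : Finset τ) : Finset (Sym2 τ) :=
  T.edgeFinset \ L.image (fun y => s(x, y))

theorem inn_mem (T : SimpleGraph τ) [DecidableRel T.Adj] (x : τ) (L : Finset τ)
    (hL : ∀ y ∈ L, T.Adj x y ∧ ∀ z, T.Adj y z → z = x) {a b : τ}
    (h : s(a, b) ∈ inn T x L) : a ∉ L ∧ b ∉ L ∧ T.Adj a b := by
  unfold inn at h
  rw [mem_sdiff, SimpleGraph.mem_edgeFinset, SimpleGraph.mem_edgeSet] at h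
  refine ⟨fun ha => h.2 ?_, fun hb => h.2 ?_, h.1⟩
  · have h1 := (hL a ha).2 b h.1
    rw [h1, Sym2.eq_swap]
    exact mem_image_of_mem _ ha
  · have h1 := (hL b hb).2 a h.1.symm
    rw [h1]
    exact mem_image_of_mem _ hb

theorem star_inj (x : τ) : Function.Injective (fun y : τ => s(x, y)) := by
  intro y z h
  simp only [Sym2.eq_iff] at h
  rcases h with ⟨_, h⟩ | ⟨h1, h2⟩
  · exact h
  · rw [h2, ← h1]

theorem star_sub (T : SimpleGraph τ) [DecidableRel T.Adj] (x : τ) (L : Finset τ)
    (hL : ∀ y ∈ L, T.Adj x y ∧ ∀ z, T.Adj y z → z = x) :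
    L.image (fun y => s(x, y)) ⊆ T.edgeFinset := by
  intro e he
  obtain ⟨y, hy, rfl⟩ := mem_image.1 he
  rw [SimpleGraph.mem_edgeFinset, SimpleGraph.mem_edgeSet]
  exact (hL y hy).1

theorem inn_card (T : SimpleGraph τ) [DecidableRel T.Adj] (hT : T.IsTree) (x : τ) (L : Finset τ)
    (hL : ∀ y ∈ L, T.Adj x y ∧ ∀ z, T.Adj y z → z = x) :
    #(inn T x L) + #L + 1 = Fintype.card τ := by
  have h1 := hT.card_edgeFinset
  have h2 := card_sdiff_add_card_eq_card (star_sub T x L hL)
  rw [card_image_of_injective _ (star_inj x)] at h2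
  unfold inn
  omega

variable {V : Type} [Fintype V] [DecidableEq V] {p : ℕ}

/-- extending a placement to the leaves -/
theorem leaf (T : SimpleGraph τ) [DecidableRel T.Adj] (x : τ) (L : Finset τ)
    (hL : ∀ y ∈ L, T.Adj x y ∧ ∀ z, T.Adj y z → z = x) (G : SimpleGraph V) (c : Sym2 V → ZMod p)
    (f : τ → V) (hinj : Set.InjOn f ((univ \ L : Finset τ) : Set τ))
    (hadj : ∀ a ∈ univ \ L, ∀ b ∈ univ \ L, T.Adj a b → G.Adj (f a) (f b))
    (B : Finset V) (hB : ∀ w ∈ B, G.Adj (f x) w) (hB' : ∀ w ∈ B, ∀ a ∈ univ \ L, f a ≠ w)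
    (hcard : #B = #L)
    (hsum : ∑ w ∈ B, c s(f x, w) + ∑ e ∈ inn T x L, c (Sym2.map f e) = 0) :
    ∃ g : τ → V, Function.Injective g ∧ (∀ a b, T.Adj a b → G.Adj (g a) (g b)) ∧
      ∑ e ∈ T.edgeFinset, c (Sym2.map g e) = 0 := by
  have hx : x ∉ L := fun h => T.loopless.irrefl x (hL x h).1
  have eqv : L ≃ B := Fintype.equivOfCardEq (by
    rw [Fintype.card_coe, Fintype.card_coe, hcard])
  set g : τ → V := fun y => if h : y ∈ L then (eqv ⟨y, h⟩ : V) else f y with hg
  have g1 : ∀ y (h : y ∈ L), g y = (eqv ⟨y, h⟩ : V) := fun y h => by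
    simp only [hg, dif_pos h]
  have g2 : ∀ y, y ∉ L → g y = f y := fun y h => by
    simp only [hg, dif_neg h]
  have g3 : ∀ y ∈ L, g y ∈ B := fun y h => by
    rw [g1 y h]
    exact (eqv ⟨y, h⟩).2
  have hmem : ∀ y, y ∉ L → y ∈ univ \ L := fun y h => mem_sdiff.2 ⟨mem_univ y, h⟩
  refine ⟨g, ?_, ?_, ?_⟩
  · intro y z hyz
    by_cases hy : y ∈ L
    · by_cases hz : z ∈ L
      · rw [g1 y hy, g1 z hz] at hyz
        have := eqv.injective (Subtype.ext hyz)
        exact congrArg Subtype.val this
      · exfalso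
        rw [g2 z hz] at hyz
        exact hB' _ (g3 y hy) z (hmem z hz) hyz.symm
    · by_cases hz : z ∈ L
      · exfalso
        rw [g2 y hy] at hyz
        exact hB' _ (g3 z hz) y (hmem y hy) hyz
      · rw [g2 y hy, g2 z hz] at hyz
        exact hinj (mem_coe.2 (hmem y hy)) (mem_coe.2 (hmem z hz)) hyz
  · intro a b hab
    by_cases ha : a ∈ L
    · have hb := (hL a ha).2 b hab
      rw [hb, g2 x hx]
      exact (hB _ (g3 a ha)).symm
    · by_cases hb : b ∈ L
      · have ha' := (hL b hb).2 a hab.symm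
        rw [ha', g2 x hx]
        exact hB _ (g3 b hb)
      · rw [g2 a ha, g2 b hb]
        exact hadj a (hmem a ha) b (hmem b hb) hab
  · rw [← sum_sdiff (star_sub T x L hL), add_comm]
    refine Eq.trans ?_ hsum
    congr 1
    · rw [sum_image (fun y _ z _ h => star_inj x h)]
      have h1 : ∀ y ∈ L, c (Sym2.map g s(x, y)) = c s(f x, g y) := by
        intro y _
        rw [Sym2.map_mk, g2 x hx]
      rw [sum_congr rfl h1]
      have h2 : L.image g = B := by
        apply eq_of_subset_of_card_le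
        · intro w hw
          obtain ⟨y, hy, rfl⟩ := mem_image.1 hw
          exact g3 y hy
        · rw [card_image_of_injOn, hcard]
          intro y hy z hz hyz
          rw [mem_coe] at hy hz
          have hyz' : g y = g z := hyz
          rw [g1 y hy, g1 z hz] at hyz'
          have := eqv.injective (Subtype.ext hyz')
          exact congrArg Subtype.val this
      rw [← h2, sum_image]
      intro y hy z hz hyz
      rw [mem_coe] at hy hz
      have hyz' : g y = g z := hyz
      rw [g1 y hy, g1 z hz] at hyz'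
      have := eqv.injective (Subtype.ext hyz')
      exact congrArg Subtype.val this
    · refine sum_congr rfl fun e he => ?_
      induction e using Sym2.ind with
      | _ a b =>
        obtain ⟨ha, hb, _⟩ := inn_mem T x L hL he
        rw [Sym2.map_mk, Sym2.map_mk, g2 a ha, g2 b hb]

/-- the main theorem, for a set of leaves -/
theorem near_star [Fact p.Prime] (T : SimpleGraph τ) [DecidableRel T.Adj] (hT : T.IsTree)
    (hτ : Fintype.card τ = p + 1) (x : τ) (L : Finset τ)
    (hL : ∀ y ∈ L, T.Adj x y ∧ ∀ z, T.Adj y z → z = x) (hk : #L + 1 ≤ p)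
    (hk5 : 5 * (p - #L) ≤ p) [Nonempty V] (G : SimpleGraph V) [DecidableRel G.Adj]
    (hG : ∀ v, 2 * p ≤ G.degree v + 1) (c : Sym2 V → ZMod p) :
    ∃ g : τ → V, Function.Injective g ∧ (∀ a b, T.Adj a b → G.Adj (g a) (g b)) ∧
      ∑ e ∈ T.edgeFinset, c (Sym2.map g e) = 0 := by
  classical
  by_contra hno
  have hx : x ∉ L := fun h => T.loopless.irrefl x (hL x h).1
  have hxI : x ∈ univ \ L := mem_sdiff.2 ⟨mem_univ x, hx⟩
  obtain ⟨t, ht⟩ := tree_codes T hT x L hL
  have hI : #(univ \ L : Finset τ) + #L = p + 1 := by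
    rw [card_sdiff_add_card_eq_card (subset_univ L), card_univ, hτ]
  have hinn := inn_card T hT x L hL
  rw [hτ] at hinn
  -- no extension of a placement
  have main : ∀ (v : V) (f : τ → V), f x = v →
      Set.InjOn f ((univ \ L : Finset τ) : Set τ) →
      (∀ a ∈ univ \ L, ∀ b ∈ univ \ L, T.Adj a b → G.Adj (f a) (f b)) →
      #(((univ \ L).erase x).image f) ≤ p - #L ∧
      ∀ B, B ⊆ G.neighborFinset v \ ((univ \ L).erase x).image f → #B = #L →
        ∑ w ∈ B, c s(v, w) + ∑ e ∈ inn T x L, c (Sym2.map f e) ≠ 0 := by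
    intro v f hf hinj hadj
    constructor
    · have h1 : #(((univ \ L).erase x).image f) ≤ #((univ \ L).erase x) := card_image_le
      rw [card_erase_of_mem hxI] at h1
      omega
    · intro B hB hBc hsum
      apply hno
      refine leaf T x L hL G c f hinj hadj B ?_ ?_ hBc (by rw [hf]; exact hsum)
      · intro w hw
        rw [hf]
        have := (mem_sdiff.1 (hB hw)).1
        rwa [SimpleGraph.mem_neighborFinset] at this
      · intro w hw a ha h
        have h1 := mem_sdiff.1 (hB hw)
        by_cases hax : a = x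
        · rw [SimpleGraph.mem_neighborFinset] at h1
          rw [← h, hax, hf] at h1
          exact G.loopless.irrefl v h1.1
        · apply h1.2
          rw [← h]
          exact mem_image_of_mem f (mem_erase.2 ⟨hax, ha⟩)
  apply count G c (p - #L) #L
  intro v
  refine ⟨by omega, by omega, hk5, ?_, ?_, ?_⟩
  · rw [SimpleGraph.card_neighborFinset_eq_degree]
    exact hG v
  · intro U hU hUc
    have hvU : v ∉ U := by
      intro h
      have := hU h
      rw [SimpleGraph.mem_neighborFinset] at this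
      exact G.loopless.irrefl v this
    obtain ⟨f, hf, _, hfU, hinj, hadj⟩ := ZS.mono_main T G univ (2 * p - 1) (by
      intro w _
      have h1 := hG w
      have h2 : #{z ∈ univ | G.Adj w z} = G.degree w := by
        rw [← SimpleGraph.card_neighborFinset_eq_degree]
        congr 1
        ext z
        rw [mem_filter, SimpleGraph.mem_neighborFinset]
        exact ⟨fun h => h.2, fun h => ⟨mem_univ z, h⟩⟩
      omega) ht v U (mem_univ v) hvU (by omega)
    obtain ⟨h1, h2⟩ := main v f hf hinj hadj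
    refine ⟨((univ \ L).erase x).image f, ∑ e ∈ inn T x L, c (Sym2.map f e), ?_, h1, h2⟩
    rw [disjoint_left]
    intro w hw hwU
    obtain ⟨a, ha, rfl⟩ := mem_image.1 hw
    exact hfU a (mem_of_mem_erase ha) hwU
  · intro a ha
    obtain ⟨f, hf, _, _, hinj, hadj⟩ := ZS.mono_main T (cls G c a) (Core (cls G c a) (p - #L))
      (p - #L) (Core_deg (cls G c a) (p - #L)) ht v ∅ ha (notMem_empty v) (by
        rw [card_empty]
        omega)
    obtain ⟨h1, h2⟩ := main v f hf hinj (fun a ha b hb h => (hadj a ha b hb h).1)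
    refine ⟨((univ \ L).erase x).image f, h1, ?_⟩
    intro B hB hBc
    have h3 := h2 B hB hBc
    have h4 : ∑ e ∈ inn T x L, c (Sym2.map f e) = ((p - #L : ℕ) : ZMod p) * a := by
      rw [sum_congr rfl (g := fun _ => a), sum_const, nsmul_eq_mul]
      · congr 2
        omega
      · intro e he
        induction e using Sym2.ind with
        | _ y z =>
          obtain ⟨hy, hz, hyz⟩ := inn_mem T x L hL he
          rw [Sym2.map_mk]
          exact (hadj y (mem_sdiff.2 ⟨mem_univ y, hy⟩) z (mem_sdiff.2 ⟨mem_univ z, hz⟩) hyz).2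
    rw [h4] at h3
    exact h3

end Pool.Agent.Helper4.NS
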