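import Pool.Agent.Helper4.NS.Sums

set_option autoImplicit false
set_option linter.unusedSectionVars false

/-!
MP_98699e_co, near-stars: hypotheses at a vertex, the case of two majority colours.
-/

open Finset
open scoped Pointwise

namespace Pool.Agent.Helper4.NS

variable {V : Type} [DecidableEq V] {p : ℕ}

/-- hypotheses at a vertex with neighbourhood `Nb`: there is no zero-sum copy -/
structure VH (k l : ℕ) (Nb : Finset V) (χ : V → ZMod p) (core : ZMod p → Prop) : Prop where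
  k1 : 1 ≤ k
  kl : k + l = p
  k5 : 5 * k ≤ p
  deg : 2 * p ≤ #Nb + 1
  H1 : ∀ U, U ⊆ Nb → #U + k + 1 ≤ 2 * p → ∃ (φ : Finset V) (t : ZMod p), Disjoint φ U ∧ #φ ≤ k ∧
    ∀ B, B ⊆ Nb \ φ → #B = l → ∑ w ∈ B, χ w + t ≠ 0
  H2 : ∀ a, core a → ∃ φ : Finset V, #φ ≤ k ∧
    ∀ B, B ⊆ Nb \ φ → #B = l → ∑ w ∈ B, χ w + (k : ZMod p) * a ≠ 0

theorem dg_sdiff (χ : V → ZMod p) (Nb φ : Finset V) (a : ZMod p) :
    dg χ Nb a = dg χ (Nb \ φ) a + dg χ (Nb ∩ φ) a := by
  unfold dg
  rw [← card_union_of_disjoint]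
  · congr 1
    ext w
    simp only [mem_filter, mem_union, mem_sdiff, mem_inter]
    tauto
  · rw [disjoint_left]
    intro w hw hw'
    rw [mem_filter, mem_sdiff] at hw
    rw [mem_filter, mem_inter] at hw'
    exact hw.1.2 hw'.1.2

theorem dg_le_card (χ : V → ZMod p) (A : Finset V) (a : ZMod p) : dg χ A a ≤ #A :=
  card_filter_le _ _

theorem inter_card {k : ℕ} (Nb φ : Finset V) (h : #φ ≤ k) : #(Nb ∩ φ) ≤ k :=
  (card_le_card inter_subset_right).trans h

section

variable [Fact p.Prime] {k l : ℕ} {Nb : Finset V} {χ : V → ZMod p} {core : ZMod p → Prop}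

/-- the truncated degree is small -/
theorem VH.tr_le (_h : VH k l Nb χ core) {φ : Finset V} {t : ZMod p}
    (hB : ∀ B, B ⊆ Nb \ φ → #B = l → ∑ w ∈ B, χ w + t ≠ 0) : tr χ l (Nb \ φ) + 2 ≤ p + l := by
  by_contra hc
  have hp : 2 ≤ p := (Fact.out : p.Prime).two_le
  have h1 := att_card χ l (Nb \ φ) (by omega)
  have h2 : p ≤ #(Att χ l (Nb \ φ)) := by omega
  obtain ⟨B, hB1, hB2, hB3⟩ := att_full h2 (-t)
  exact hB B hB1 hB2 (by rw [hB3]; ring)

/-- a monochromatic set of leaves -/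
theorem VH.mono (h : VH k l Nb χ core) {a : ZMod p} {φ : Finset V}
    (hB : ∀ B, B ⊆ Nb \ φ → #B = l → ∑ w ∈ B, χ w + (k : ZMod p) * a ≠ 0) :
    dg χ (Nb \ φ) a + 1 ≤ l := by
  by_contra hc
  obtain ⟨B, hB1, hB2⟩ := exists_subset_card_eq (show l ≤ #((Nb \ φ).filter (fun w => χ w = a)) by
    unfold dg at hc; omega)
  apply hB B (hB1.trans (filter_subset _ _)) hB2
  have h1 : ∑ w ∈ B, χ w = ∑ w ∈ B, a := sum_congr rfl fun w hw => (mem_filter.1 (hB1 hw)).2
  rw [h1, sum_const, hB2, nsmul_eq_mul, ← add_mul, ← Nat.cast_add, add_comm l k, h.kl]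
  simp

theorem VH.core_lt (h : VH k l Nb χ core) {a : ZMod p} (ha : core a) : dg χ Nb a + 1 ≤ p := by
  obtain ⟨φ, hφ, hB⟩ := h.H2 a ha
  have h1 := h.mono hB
  have h2 := dg_sdiff χ Nb φ a
  have h3 := dg_le_card χ (Nb ∩ φ) a
  have h4 := inter_card Nb φ hφ
  have := h.kl
  omega

/-- a subset with sum in a window -/
theorem window (u : V → ℕ) (M h : ℕ) (h1 : 1 ≤ h) : ∀ X : Finset V, (∀ w ∈ X, u w ≤ M) →
    h ≤ ∑ w ∈ X, u w → ∃ J, J ⊆ X ∧ h ≤ ∑ w ∈ J, u w ∧ ∑ w ∈ J, u w + 1 ≤ h + M := by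
  intro X
  induction X using Finset.induction_on with
  | empty =>
    intro _ h2
    rw [sum_empty] at h2
    omega
  | insert w X hw ih =>
    intro hM h2
    by_cases h3 : h ≤ ∑ w ∈ X, u w
    · obtain ⟨J, hJ1, hJ2, hJ3⟩ := ih (fun x hx => hM x (mem_insert_of_mem hx)) h3
      exact ⟨J, hJ1.trans (subset_insert _ _), hJ2, hJ3⟩
    · refine ⟨insert w X, Subset.rfl, h2, ?_⟩
      rw [sum_insert hw]
      have := hM w (mem_insert_self _ _)
      omega

/-- the integer `y` with `χ w = a - y (a' - a)` -/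
def yv (χ : V → ZMod p) (a a' : ZMod p) (w : V) : ℕ := ((a - χ w) / (a' - a)).val

/-- elements of a third colour on the negative side -/
def Neg (Nb : Finset V) (χ : V → ZMod p) (a a' : ZMod p) : Finset V :=
  Nb.filter fun w => χ w ≠ a ∧ χ w ≠ a' ∧ 2 * yv χ a a' w + 1 ≤ p

theorem yv_eq {a a' : ZMod p} (haa : a ≠ a') (w : V) :
    χ w = a - (yv χ a a' w : ZMod p) * (a' - a) := by
  unfold yv
  rw [ZMod.natCast_zmod_val, div_mul_cancel₀ _ (sub_ne_zero.2 haa.symm)]
  ring

theorem yv_pos {a a' : ZMod p} (haa : a ≠ a') {w : V} (hw : χ w ≠ a) : 1 ≤ yv χ a a' w := by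
  by_contra h
  have h0 : yv χ a a' w = 0 := by omega
  have h1 := yv_eq (χ := χ) haa w
  rw [h0] at h1
  apply hw
  rw [h1]
  simp

theorem VH.neg_le (h : VH k l Nb χ core) {a a' : ZMod p} (haa : a ≠ a') (ha : core a)
    (hD' : l + 1 ≤ dg χ Nb a') (hD : l + 1 ≤ dg χ Nb a) :
    #(Neg Nb χ a a') + dg χ Nb a + 1 ≤ p := by
  obtain ⟨φ, hφ, hB⟩ := h.H2 a ha
  have hkl := h.kl
  have hk5 := h.k5
  have hk1 := h.k1
  have h1 := h.mono hB
  have h2 := dg_sdiff χ Nb φ a
  have h2' := dg_sdiff χ Nb φ a'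
  have hIφ := inter_card Nb φ hφ
  -- disjoint parts of `Nb ∩ φ`
  have h3 : dg χ (Nb ∩ φ) a + dg χ (Nb ∩ φ) a' ≤ k := by
    refine le_trans ?_ hIφ
    unfold dg
    rw [← card_union_of_disjoint]
    · exact card_le_card (union_subset (filter_subset _ _) (filter_subset _ _))
    · rw [disjoint_left]
      intro w hw hw'
      rw [mem_filter] at hw hw'
      exact haa (hw.2.symm.trans hw'.2)
  have h4 : dg χ (Nb ∩ φ) a + #(Neg Nb χ a a' ∩ φ) ≤ k := by
    refine le_trans ?_ hIφ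
    unfold dg
    rw [← card_union_of_disjoint]
    · apply card_le_card
      apply union_subset (filter_subset _ _)
      intro w hw
      rw [mem_inter] at hw ⊢
      exact ⟨(mem_filter.1 hw.1).1, hw.2⟩
    · rw [disjoint_left]
      intro w hw hw'
      rw [mem_filter] at hw
      rw [mem_inter] at hw'
      exact (mem_filter.1 hw'.1).2.1 hw.2
  have h5 : #(Neg Nb χ a a') = #(Neg Nb χ a a' \ φ) + #(Neg Nb χ a a' ∩ φ) :=
    (card_sdiff_add_card_inter _ _).symm
  set hh := l - dg χ (Nb \ φ) a with hhh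
  -- the remaining negative elements
  have h6 : ∑ w ∈ Neg Nb χ a a' \ φ, (yv χ a a' w + 1) + 1 ≤ hh := by
    by_contra hcon
    obtain ⟨J, hJ1, hJ2, hJ3⟩ := window (fun w => yv χ a a' w + 1) ((p + 1) / 2) hh (by omega)
      (Neg Nb χ a a' \ φ) (by
        intro w hw
        rw [mem_sdiff] at hw
        have := (mem_filter.1 hw.1).2.2.2
        show yv χ a a' w + 1 ≤ (p + 1) / 2
        omega) (by omega)
    rw [sum_add_distrib, sum_const, smul_eq_mul, mul_one] at hJ2 hJ3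
    set Y := ∑ w ∈ J, yv χ a a' w with hY
    -- the elements of colour a'
    obtain ⟨B1, hB1, hB1c⟩ := exists_subset_card_eq
      (show Y ≤ #((Nb \ φ).filter (fun w => χ w = a')) by
        unfold dg at *
        by_cases hJ0 : #J = 0
        · have : J = ∅ := card_eq_zero.1 hJ0
          rw [hY, this, sum_empty]
          exact Nat.zero_le _
        · omega)
    obtain ⟨B2, hB2, hB2c⟩ := exists_subset_card_eq
      (show l - #J - Y ≤ #((Nb \ φ).filter (fun w => χ w = a)) by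
        unfold dg at *
        omega)
    have hJN : J ⊆ Nb \ φ := by
      intro w hw
      have := mem_sdiff.1 (hJ1 hw)
      exact mem_sdiff.2 ⟨(mem_filter.1 this.1).1, this.2⟩
    have d1 : Disjoint J B1 := by
      rw [disjoint_left]
      intro w hw hw'
      exact (mem_filter.1 (mem_sdiff.1 (hJ1 hw)).1).2.2.1 (mem_filter.1 (hB1 hw')).2
    have d2 : Disjoint (J ∪ B1) B2 := by
      rw [disjoint_left]
      intro w hw hw'
      rcases mem_union.1 hw with hw | hw
      · exact (mem_filter.1 (mem_sdiff.1 (hJ1 hw)).1).2.1 (mem_filter.1 (hB2 hw')).2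
      · exact haa ((mem_filter.1 (hB2 hw')).2.symm.trans (mem_filter.1 (hB1 hw)).2)
    have hle : #J + Y ≤ l := by omega
    apply hB (J ∪ B1 ∪ B2)
    · apply union_subset (union_subset hJN (hB1.trans (filter_subset _ _)))
        (hB2.trans (filter_subset _ _))
    · rw [card_union_of_disjoint d2, card_union_of_disjoint d1, hB1c, hB2c]
      omega
    · rw [sum_union d2, sum_union d1]
      have e1 : ∑ w ∈ B1, χ w = (Y : ZMod p) * a' := by
        rw [sum_congr rfl fun w hw => (mem_filter.1 (hB1 hw)).2, sum_const, hB1c, nsmul_eq_mul]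
      have e2 : ∑ w ∈ B2, χ w = ((l - #J - Y : ℕ) : ZMod p) * a := by
        rw [sum_congr rfl fun w hw => (mem_filter.1 (hB2 hw)).2, sum_const, hB2c, nsmul_eq_mul]
      have e3 : ∑ w ∈ J, χ w = (#J : ZMod p) * a - (Y : ZMod p) * (a' - a) := by
        rw [sum_congr rfl fun w _ => yv_eq (χ := χ) haa w, sum_sub_distrib, sum_const,
          nsmul_eq_mul, ← sum_mul, hY]
        push_cast
        rfl
      have e4 : ((l - #J - Y : ℕ) : ZMod p) = (l : ZMod p) - #J - Y := by
        have : l = (l - #J - Y) + #J + Y := by omega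
        have e5 : (l : ZMod p) = ((l - #J - Y : ℕ) : ZMod p) + #J + Y := by
          conv_lhs => rw [this]
          push_cast
          ring
        rw [e5]; ring
      have e6 : (k : ZMod p) + l = 0 := by
        rw [← Nat.cast_add, hkl]; simp
      rw [e1, e2, e3, e4]
      calc _ = ((k : ZMod p) + l) * a := by ring
        _ = 0 := by rw [e6, zero_mul]
  have h7 : 2 * #(Neg Nb χ a a' \ φ) ≤ ∑ w ∈ Neg Nb χ a a' \ φ, (yv χ a a' w + 1) := by
    have : ∑ w ∈ Neg Nb χ a a' \ φ, 2 ≤ ∑ w ∈ Neg Nb χ a a' \ φ, (yv χ a a' w + 1) := by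
      refine sum_le_sum fun w hw => ?_
      have := yv_pos haa (mem_filter.1 (mem_sdiff.1 hw).1).2.1
      omega
    rw [sum_const, smul_eq_mul] at this
    omega
  omega

theorem neg_cover {a a' : ZMod p} (haa : a ≠ a') {w : V} (hw : w ∈ Nb) (h1 : χ w ≠ a)
    (h2 : χ w ≠ a') : w ∈ Neg Nb χ a a' ∨ w ∈ Neg Nb χ a' a := by
  have hp : 2 ≤ p := (Fact.out : p.Prime).two_le
  have hb : a' - a ≠ 0 := sub_ne_zero.2 haa.symm
  have hb' : a - a' ≠ 0 := sub_ne_zero.2 haa
  have e1 : (a - χ w) / (a' - a) + (a' - χ w) / (a - a') = -1 := by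
    have : a - a' = -(a' - a) := by ring
    rw [this, div_neg]
    field_simp
    ring
  have e2 : ((yv χ a a' w + yv χ a' a w + 1 : ℕ) : ZMod p) = 0 := by
    push_cast
    unfold yv
    rw [ZMod.natCast_zmod_val, ZMod.natCast_zmod_val, e1]
    ring
  rw [ZMod.natCast_eq_zero_iff] at e2
  have e3 : yv χ a a' w < p := ZMod.val_lt _
  have e4 : yv χ a' a w < p := ZMod.val_lt _
  have e5 : yv χ a a' w + yv χ a' a w + 1 ≤ 2 * p - 1 := by omega
  obtain ⟨c, hc⟩ := e2
  have hc2 : c < 2 := by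
    by_contra h
    have : 2 * p ≤ p * c := by nlinarith
    omega
  have hc1 : c = 1 := by
    interval_cases c
    · omega
    · rfl
  rw [hc1] at hc
  unfold Neg
  rw [mem_filter, mem_filter]
  by_cases h3 : 2 * yv χ a a' w + 1 ≤ p
  · exact Or.inl ⟨hw, h1, h2, h3⟩
  · exact Or.inr ⟨hw, h2, h1, by omega⟩

/-- a vertex is not in the cores of two majority colours -/
theorem VH.two_cores (h : VH k l Nb χ core) {a a' : ZMod p} (haa : a ≠ a') (ha : core a)
    (ha' : core a') (hD : l + 1 ≤ dg χ Nb a) (hD' : l + 1 ≤ dg χ Nb a') : False := by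
  have h1 := h.neg_le haa ha hD' hD
  have h2 := h.neg_le haa.symm ha' hD hD'
  have h3 : #Nb ≤ #(Neg Nb χ a a') + #(Neg Nb χ a' a) + dg χ Nb a + dg χ Nb a' := by
    have h4 : Nb ⊆ Neg Nb χ a a' ∪ Neg Nb χ a' a ∪ Nb.filter (fun w => χ w = a)
        ∪ Nb.filter (fun w => χ w = a') := by
      intro w hw
      rw [mem_union, mem_union, mem_union, mem_filter, mem_filter]
      by_cases e1 : χ w = a
      · exact Or.inl (Or.inr ⟨hw, e1⟩)
      · by_cases e2 : χ w = a'
        · exact Or.inr ⟨hw, e2⟩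
        · exact Or.inl (Or.inl (neg_cover haa hw e1 e2))
    have h5 := card_le_card h4
    have h6 := card_union_le (Neg Nb χ a a' ∪ Neg Nb χ a' a ∪ Nb.filter (fun w => χ w = a))
      (Nb.filter (fun w => χ w = a'))
    have h7 := card_union_le (Neg Nb χ a a' ∪ Neg Nb χ a' a) (Nb.filter (fun w => χ w = a))
    have h8 := card_union_le (Neg Nb χ a a') (Neg Nb χ a' a)
    unfold dg
    omega
  have := h.deg
  omega

end

end Pool.Agent.Helper4.NS
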