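import Pool.Agent.Helper4.NS.Two

set_option autoImplicit false
set_option linter.unusedSectionVars false

/-!
MP_98699e_co, near-stars: the inequality at a vertex.
-/

open Finset
open scoped Pointwise

namespace Pool.Agent.Helper4.NS

variable {V : Type} [DecidableEq V] {p : ℕ}

open Classical in
/-- gain of the colour `a` -/
noncomputable def ff (k : ℕ) (D : ZMod p → ℕ) (core : ZMod p → Prop) (a : ZMod p) : ℤ :=
  if core a then 0 else (D a : ℤ) - 2 * (min (k - 1) (D a) : ℕ)

theorem ff_ge1 (k : ℕ) (D : ZMod p → ℕ) (core : ZMod p → Prop) (a : ZMod p) :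
    -(D a : ℤ) ≤ ff k D core a := by
  unfold ff
  split_ifs
  · omega
  · have : min (k - 1) (D a) ≤ D a := min_le_right _ _
    omega

theorem ff_ge2 (k : ℕ) (D : ZMod p → ℕ) (core : ZMod p → Prop) (a : ZMod p) :
    -((k - 1 : ℕ) : ℤ) ≤ ff k D core a := by
  unfold ff
  split_ifs
  · omega
  · omega

theorem ff_ge3 (k : ℕ) (D : ZMod p → ℕ) (core : ZMod p → Prop) (a : ZMod p)
    (h : 2 * (k - 1) ≤ D a) : 0 ≤ ff k D core a := by
  unfold ff
  split_ifs
  · omega
  · have : min (k - 1) (D a) ≤ k - 1 := min_le_left _ _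
    omega

theorem ff_eq (k : ℕ) (D : ZMod p → ℕ) (core : ZMod p → Prop) (a : ZMod p)
    (h : ¬ core a) : (D a : ℤ) - 2 * (k - 1 : ℕ) ≤ ff k D core a := by
  unfold ff
  rw [if_neg h]
  have : min (k - 1) (D a) ≤ k - 1 := min_le_left _ _
  omega

section

variable [Fact p.Prime]

theorem ff_sum_ge (k : ℕ) (D : ZMod p → ℕ) (core : ZMod p → Prop) (S : Finset (ZMod p)) (n : ℕ)
    (hn : ∑ a ∈ S, D a ≤ n) : -(n : ℤ) ≤ ∑ a ∈ S, ff k D core a := by
  have h1 : ∑ a ∈ S, -(D a : ℤ) ≤ ∑ a ∈ S, ff k D core a :=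
    sum_le_sum fun a _ => ff_ge1 k D core a
  rw [sum_neg_distrib] at h1
  have h2 : (∑ a ∈ S, (D a : ℤ)) = ((∑ a ∈ S, D a : ℕ) : ℤ) := by push_cast; rfl
  rw [h2] at h1
  have h3 : ((∑ a ∈ S, D a : ℕ) : ℤ) ≤ (n : ℤ) := by exact_mod_cast hn
  linarith

theorem tr_eq {χ : V → ZMod p} {l : ℕ} {A : Finset V} (h : ∀ a, dg χ A a ≤ l) :
    tr χ l A = #A := by
  rw [← sum_dg χ A]
  unfold tr
  exact sum_congr rfl fun a _ => min_eq_left (h a)

theorem card_ne (χ : V → ZMod p) (A : Finset V) (a0 : ZMod p) :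
    #(A.filter (fun w => χ w ≠ a0)) + dg χ A a0 = #A := by
  unfold dg
  rw [add_comm]
  exact card_filter_add_card_filter_not (s := A) (fun w => χ w = a0)

theorem tr_one {χ : V → ZMod p} {l : ℕ} {A : Finset V} {a0 : ZMod p}
    (h : ∀ a, a ≠ a0 → dg χ A a ≤ l) (h0 : l ≤ dg χ A a0) :
    tr χ l A = l + #(A.filter (fun w => χ w ≠ a0)) := by
  have h1 := card_ne χ A a0
  have h2 := sum_dg χ A
  unfold tr
  rw [← add_sum_erase univ _ (mem_univ a0)] at h2 ⊢
  rw [min_eq_right h0]
  have h3 : ∑ a ∈ univ.erase a0, min (dg χ A a) l = ∑ a ∈ univ.erase a0, dg χ A a :=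
    sum_congr rfl fun a ha => min_eq_left (h a (ne_of_mem_erase ha))
  rw [h3]
  omega

variable {k l : ℕ} {Nb : Finset V} {χ : V → ZMod p} {core : ZMod p → Prop}

/-- the truncated degree of the vertex -/
theorem VH.tr_nb (h : VH k l Nb χ core) : tr χ l Nb + 2 ≤ p + l + k := by
  have hp : 2 ≤ p := (Fact.out : p.Prime).two_le
  obtain ⟨φ, t, _, hφ, hB⟩ := h.H1 ∅ (empty_subset _) (by
    have := h.k5
    rw [card_empty]; omega)
  have h1 := h.tr_le hB
  have h2 : tr χ l Nb ≤ tr χ l (Nb \ φ) + #(Nb ∩ φ) := by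
    rw [← sum_dg χ (Nb ∩ φ)]
    unfold tr
    rw [← sum_add_distrib]
    refine sum_le_sum fun a _ => ?_
    have := dg_sdiff χ Nb φ a
    omega
  have h3 := inter_card Nb φ hφ
  omega

theorem VH.two_aux (h : VH k l Nb χ core) {a0 a1 : ZMod p} (h01 : a0 ≠ a1)
    (h0 : l + 1 ≤ dg χ Nb a0) (h1 : l + 1 ≤ dg χ Nb a1) (hc : ¬ core a0) :
    0 < ∑ a, ff k (dg χ Nb) core a := by
  have hkl := h.kl
  have hk5 := h.k5
  have hk1 := h.k1
  have h2 := h.tr_nb
  have hm1 : a1 ∈ univ.erase a0 := mem_erase.2 ⟨h01.symm, mem_univ _⟩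
  unfold tr at h2
  obtain ⟨S, hS⟩ : ∃ S, S = (univ.erase a0).erase a1 := ⟨_, rfl⟩
  rw [← add_sum_erase univ _ (mem_univ a0), ← add_sum_erase _ _ hm1, ← hS] at h2 ⊢
  rw [min_eq_right (by omega), min_eq_right (by omega)] at h2
  have h3 : ∀ a ∈ S, min (dg χ Nb a) l = dg χ Nb a := by
    intro a ha
    have h4 := single_le_sum (f := fun a => min (dg χ Nb a) l) (fun _ _ => Nat.zero_le _) ha
    have h5 : min (dg χ Nb a) l ≤ ∑ a ∈ S, min (dg χ Nb a) l := h4
    omega
  have h4 := ff_eq k (dg χ Nb) core a0 hc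
  have h5 := ff_ge3 k (dg χ Nb) core a1 (by omega)
  have h6 := ff_sum_ge k (dg χ Nb) core S (2 * k - 2) (by
    rw [← sum_congr rfl h3]
    omega)
  omega

theorem min_sum_le {ι : Type} [DecidableEq ι] (S : Finset ι) (x : ι → ℕ) (c : ℕ) :
    min (∑ i ∈ S, x i) c ≤ ∑ i ∈ S, min (x i) c := by
  induction S using Finset.induction_on with
  | empty => simp
  | insert i S hi ih =>
    rw [sum_insert hi, sum_insert hi]
    omega

/-- many pairs -/
theorem VH.pairs (h : VH k l Nb χ core) {a0 : ZMod p} {M : Finset V}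
    (hM : M = Nb.filter (fun w => χ w ≠ a0)) (hMp : #M + 2 ≤ p)
    (hMk : p + 1 ≤ #M + k) (hc : ¬ core a0) (q : ℕ)
    (hq : q + 1 + #M = p) {W : Finset V} (hW : W ⊆ M) (hPF : PF χ a0 q W) :
    0 < ∑ a, ff k (dg χ Nb) core a := by
  have hkl := h.kl
  have hk5 := h.k5
  have hk1 := h.k1
  have hdeg := h.deg
  have hD0 := card_ne χ Nb a0
  rw [← hM] at hD0
  have hWc := hPF.card
  have hMN : M ⊆ Nb := by rw [hM]; exact filter_subset _ _
  have hMcol : ∀ w ∈ M, χ w ≠ a0 := by
    intro w hw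
    rw [hM] at hw
    exact (mem_filter.1 hw).2
  obtain ⟨φ, t, hφM, hφ, hB⟩ := h.H1 M hMN (by omega)
  have hMφ : M ⊆ Nb \ φ := by
    intro w hw
    exact mem_sdiff.2 ⟨hMN hw, fun h' => disjoint_left.1 hφM h' hw⟩
  have h1 := dg_sdiff χ Nb φ a0
  have h2 := dg_le_card χ (Nb ∩ φ) a0
  have h3 := inter_card Nb φ hφ
  obtain ⟨Z, hZ, hZc⟩ := exists_subset_card_eq
    (show 2 * q ≤ #((Nb \ φ).filter (fun w => χ w = a0)) by unfold dg at *; omega)
  obtain ⟨Z2, hZ2, hZ2c⟩ := exists_subset_card_eq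
    (show l - 2 * q ≤ #(((Nb \ φ).filter (fun w => χ w = a0)) \ Z) by
      rw [card_sdiff_of_subset hZ]
      unfold dg at *
      omega)
  set l' := l - 2 * q with hl'
  set M1 := M \ W with hM1
  have hM1c : #M1 + 2 * q = #M := by
    rw [hM1, card_sdiff_of_subset hW, hWc]
    have := card_le_card hW
    omega
  have hZcol : ∀ z ∈ Z, χ z = a0 := fun z hz => (mem_filter.1 (hZ hz)).2
  have hZ2col : ∀ z ∈ Z2, χ z = a0 := fun z hz =>
    (mem_filter.1 (mem_sdiff.1 (hZ2 hz)).1).2
  have hM1col : ∀ w ∈ M1, χ w ≠ a0 := fun w hw => hMcol w (mem_sdiff.1 hw).1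
  set A1 := M1 ∪ Z2 with hA1
  have hdA1 : ∀ a, a ≠ a0 → dg χ A1 a = dg χ M1 a := by
    intro a ha
    unfold dg
    congr 1
    ext w
    rw [mem_filter, mem_filter, hA1, mem_union]
    constructor
    · rintro ⟨h4 | h4, h5⟩
      · exact ⟨h4, h5⟩
      · exact absurd (h5.symm.trans (hZ2col w h4)) ha
    · rintro ⟨h4, h5⟩
      exact ⟨Or.inl h4, h5⟩
  have hdA0 : dg χ A1 a0 = l' := by
    unfold dg
    rw [← hZ2c]
    congr 1
    ext w
    rw [mem_filter, hA1, mem_union]
    constructor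
    · rintro ⟨h4 | h4, h5⟩
      · exact absurd h5 (hM1col w h4)
      · exact h4
    · intro h4
      exact ⟨Or.inr h4, hZ2col w h4⟩
  have hA1ne : A1.filter (fun w => χ w ≠ a0) = M1 := by
    ext w
    rw [mem_filter, hA1, mem_union]
    constructor
    · rintro ⟨h4 | h4, h5⟩
      · exact h4
      · exact absurd (hZ2col w h4) h5
    · intro h4
      exact ⟨Or.inl h4, hM1col w h4⟩
  -- the sums cannot be everything
  have hfin : min p (tr χ l' A1 + 1 - l') + 3 * q < p ∨ ¬ l' ≤ tr χ l' A1 := by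
    by_contra hcon
    push Not at hcon
    obtain ⟨hc1, hc2⟩ := hcon
    have h4 := att_card χ l' A1 hc2
    have hne : (Att χ l' A1).Nonempty := by
      rw [← card_pos]
      have := (Fact.out : p.Prime).pos
      omega
    have h5 := att_pairs χ a0 l' A1 hne hPF Z hZc hZcol (by
      rw [disjoint_left]
      intro z hz hz'
      rw [hA1, mem_union] at hz'
      rcases hz' with h6 | h6
      · exact hM1col z h6 (hZcol z hz)
      · exact (mem_sdiff.1 (hZ2 h6)).2 hz) (by
      rw [disjoint_left]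
      intro w hw hw'
      rw [hA1, mem_union] at hw'
      rcases hw' with h6 | h6
      · exact (mem_sdiff.1 h6).2 hw
      · exact hPF.col w hw (hZ2col w h6))
    have h6 : p ≤ #(Att χ (l' + 2 * q) (A1 ∪ W ∪ Z)) := by omega
    obtain ⟨B, hB1, hB2, hB3⟩ := att_full h6 (-t)
    refine hB B (hB1.trans ?_) (by omega) (by rw [hB3]; ring)
    apply union_subset (union_subset (union_subset ?_ ?_) (hW.trans hMφ))
      (hZ.trans (filter_subset _ _))
    · exact sdiff_subset.trans hMφ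
    · exact hZ2.trans (sdiff_subset.trans (filter_subset _ _))
  by_cases hβ : ∀ a, a ≠ a0 → dg χ M1 a ≤ l'
  · -- no large class
    exfalso
    have h4 := tr_one (l := l') (A := A1) (a0 := a0) (fun a ha => (hdA1 a ha).le.trans (hβ a ha))
      hdA0.ge
    rw [hA1ne] at h4
    omega
  · push Not at hβ
    obtain ⟨a1, ha1, ha1l⟩ := hβ
    have hm1 : a1 ∈ univ.erase a0 := mem_erase.2 ⟨ha1, mem_univ _⟩
    obtain ⟨S, hS⟩ : ∃ S, S = (univ.erase a0).erase a1 := ⟨_, rfl⟩
    have h0M1 : dg χ M1 a0 = 0 := by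
      unfold dg
      rw [card_eq_zero, filter_eq_empty_iff]
      exact fun w hw => hM1col w hw
    have hsum := sum_dg χ M1
    rw [← add_sum_erase univ _ (mem_univ a0), ← add_sum_erase _ _ hm1, h0M1, ← hS] at hsum
    obtain ⟨R, hR⟩ : ∃ R, R = ∑ a ∈ S, dg χ M1 a := ⟨_, rfl⟩
    rw [← hR] at hsum
    have htr : l' + l' + min R l' ≤ tr χ l' A1 := by
      unfold tr
      rw [← add_sum_erase univ _ (mem_univ a0), ← add_sum_erase _ _ hm1, hdA0, hdA1 a1 ha1,
        ← hS, hR]
      have h4 := min_sum_le S (fun a => dg χ M1 a) l'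
      have h5 : ∑ a ∈ S, min (dg χ A1 a) l' = ∑ a ∈ S, min (dg χ M1 a) l' := by
        refine sum_congr rfl fun a ha => ?_
        rw [hS] at ha
        rw [hdA1 a (ne_of_mem_erase (mem_of_mem_erase ha))]
      rw [h5]
      have h6 : min (dg χ M1 a1) l' = l' := min_eq_right ha1l.le
      rw [min_self, h6]
      have h7 : min (∑ a ∈ S, dg χ M1 a) l' ≤ ∑ a ∈ S, min (dg χ M1 a) l' := h4
      omega
    have hRs : R + q + 2 ≤ k := by
      by_contra hcon
      rcases hfin with h4 | h4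
      · omega
      · omega
    -- the whole neighbourhood
    have hnb := sum_dg χ Nb
    rw [← add_sum_erase univ _ (mem_univ a0), ← add_sum_erase _ _ hm1, ← hS] at hnb
    have hd1 : dg χ M1 a1 ≤ dg χ Nb a1 := dg_mono χ (sdiff_subset.trans hMN) a1
    rw [← add_sum_erase univ _ (mem_univ a0), ← add_sum_erase _ _ hm1, ← hS]
    have h4 := ff_eq k (dg χ Nb) core a0 hc
    have h5 := ff_ge3 k (dg χ Nb) core a1 (by omega)
    have h6 := ff_sum_ge k (dg χ Nb) core S (q + k - 2) (by omega)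
    omega

/-- few pairs -/
theorem VH.classes (h : VH k l Nb χ core) {a0 : ZMod p} {M : Finset V}
    (hM : M = Nb.filter (fun w => χ w ≠ a0)) (hMk : p + 1 ≤ #M + k) (hc : ¬ core a0) (q q' : ℕ)
    (hq : q + 1 + #M = p) (hqq : q' < q) {W : Finset V} (hW : W ⊆ M) (hPF : PF χ a0 q' W)
    (hcl : ∀ w ∈ M \ W, ∀ w' ∈ M \ W, χ w = χ w' ∨ χ w + χ w' = a0 + a0) :
    0 < ∑ a, ff k (dg χ Nb) core a := by
  have hkl := h.kl
  have hk5 := h.k5
  have hk1 := h.k1
  have hdeg := h.deg
  have hD0 := card_ne χ Nb a0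
  rw [← hM] at hD0
  have hWc := hPF.card
  have hM0 : (M \ W).Nonempty := by
    rw [← card_pos, card_sdiff_of_subset hW]
    omega
  obtain ⟨w0, hw0⟩ := hM0
  set b1 := χ w0 with hb1
  set b2 := a0 + a0 - χ w0 with hb2
  have hpt : ∀ a ∈ univ.erase a0, -((if a = b1 then ((k - 1 : ℕ) : ℤ) else 0)
      + (if a = b2 then ((k - 1 : ℕ) : ℤ) else 0) + (dg χ W a : ℤ)) ≤ ff k (dg χ Nb) core a := by
    intro a ha
    by_cases e1 : a = b1
    · have := ff_ge2 k (dg χ Nb) core a
      rw [if_pos e1]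
      split_ifs <;> omega
    · by_cases e2 : a = b2
      · have := ff_ge2 k (dg χ Nb) core a
        rw [if_pos e2]
        split_ifs <;> omega
      · rw [if_neg e1, if_neg e2]
        have h1 := ff_ge1 k (dg χ Nb) core a
        have h2 : dg χ Nb a ≤ dg χ W a := by
          unfold dg
          apply card_le_card
          intro w hw
          rw [mem_filter] at hw ⊢
          refine ⟨?_, hw.2⟩
          by_contra hwW
          have hwM : w ∈ M := by
            rw [hM]
            refine mem_filter.2 ⟨hw.1, ?_⟩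
            rw [hw.2]
            exact ne_of_mem_erase ha
          rcases hcl w (mem_sdiff.2 ⟨hwM, hwW⟩) w0 hw0 with h3 | h3
          · exact e1 (hw.2.symm.trans h3)
          · apply e2
            rw [hb2, ← h3, ← hw.2]
            ring
        omega
  have h1 := sum_le_sum hpt
  rw [sum_neg_distrib, sum_add_distrib, sum_add_distrib] at h1
  have h2 : ∀ b : ZMod p, ∑ a ∈ univ.erase a0, (if a = b then ((k - 1 : ℕ) : ℤ) else 0)
      ≤ ((k - 1 : ℕ) : ℤ) := by
    intro b
    rw [sum_ite_eq']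
    split_ifs <;> omega
  have h3 : ∑ a ∈ univ.erase a0, (dg χ W a : ℤ) ≤ (#W : ℤ) := by
    rw [← sum_dg χ W]
    push_cast
    exact sum_le_sum_of_subset_of_nonneg (erase_subset _ _) fun _ _ _ => by positivity
  have h4 := h2 b1
  have h5 := h2 b2
  have h6 := ff_eq k (dg χ Nb) core a0 hc
  rw [← add_sum_erase univ _ (mem_univ a0)]
  omega

/-- the inequality at a vertex -/
theorem VH.main (h : VH k l Nb χ core) : 0 < ∑ a, ff k (dg χ Nb) core a := by
  have hkl := h.kl
  have hk5 := h.k5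
  have hk1 := h.k1
  have hdeg := h.deg
  have hp : 2 ≤ p := (Fact.out : p.Prime).two_le
  by_cases h0 : ∃ a0, l + 1 ≤ dg χ Nb a0
  · obtain ⟨a0, h0⟩ := h0
    by_cases h1 : ∃ a1, a0 ≠ a1 ∧ l + 1 ≤ dg χ Nb a1
    · obtain ⟨a1, h01, h1⟩ := h1
      by_cases hc : core a0
      · by_cases hc' : core a1
        · exact (h.two_cores h01 hc hc' h0 h1).elim
        · exact h.two_aux h01.symm h1 h0 hc'
      · exact h.two_aux h01 h0 h1 hc
    · push Not at h1
      have ho : ∀ a, a ≠ a0 → dg χ Nb a ≤ l := by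
        intro a ha
        have := h1 a ha.symm
        omega
      have hD0 := card_ne χ Nb a0
      obtain ⟨M, hM⟩ : ∃ M, M = Nb.filter (fun w => χ w ≠ a0) := ⟨_, rfl⟩
      rw [← hM] at hD0
      have hMN : M ⊆ Nb := by rw [hM]; exact filter_subset _ _
      have hMcol : ∀ w ∈ M, χ w ≠ a0 := by
        intro w hw
        rw [hM] at hw
        exact (mem_filter.1 hw).2
      have hMp : #M + 2 ≤ p := by
        by_contra hcon
        obtain ⟨U, hU, hUc⟩ := exists_subset_card_eq (show p - 1 ≤ #M by omega)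
        obtain ⟨φ, t, hφU, hφ, hB⟩ := h.H1 U (hU.trans hMN) (by omega)
        have h2 := h.tr_le hB
        have h3 : ∀ a, a ≠ a0 → dg χ (Nb \ φ) a ≤ l := fun a ha =>
          (dg_mono χ sdiff_subset a).trans (ho a ha)
        by_cases h4 : dg χ (Nb \ φ) a0 ≤ l
        · have h5 := tr_eq (χ := χ) (l := l) (A := Nb \ φ) (by
            intro a
            by_cases ha : a = a0
            · rw [ha]; exact h4
            · exact h3 a ha)
          have h6 := le_card_sdiff φ Nb
          omega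
        · have h5 := tr_one h3 (by omega)
          have h6 : #U ≤ #((Nb \ φ).filter (fun w => χ w ≠ a0)) := by
            apply card_le_card
            intro w hw
            exact mem_filter.2 ⟨mem_sdiff.2 ⟨hMN (hU hw),
              fun h' => disjoint_left.1 hφU h' hw⟩, hMcol w (hU hw)⟩
          omega
      have hc : ¬ core a0 := by
        intro hc
        have := h.core_lt hc
        omega
      by_cases hMk : #M + k ≤ p
      · have h4 := ff_eq k (dg χ Nb) core a0 hc
        have h8 := sum_dg χ Nb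
        rw [← add_sum_erase univ _ (mem_univ a0)] at h8 ⊢
        have h6 := ff_sum_ge k (dg χ Nb) core (univ.erase a0) (#M) (by omega)
        omega
      · rcases pf_exists χ a0 M hMcol (p - 1 - #M) with
          ⟨W, hW, hPF⟩ | ⟨W, q', hW, hq', hPF, hcl⟩
        · exact h.pairs hM hMp (by omega) hc (p - 1 - #M) (by omega) hW hPF
        · exact h.classes hM (by omega) hc (p - 1 - #M) q' (by omega) hq' hW hPF hcl
  · exfalso
    push Not at h0
    obtain ⟨φ, t, _, hφ, hB⟩ := h.H1 ∅ (empty_subset _) (by rw [card_empty]; omega)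
    have h2 := h.tr_le hB
    have h5 := tr_eq (χ := χ) (l := l) (A := Nb \ φ) (by
      intro a
      have := h0 a
      have := dg_mono χ (sdiff_subset : Nb \ φ ⊆ Nb) a
      omega)
    have h6 := le_card_sdiff φ Nb
    omega

end

end Pool.Agent.Helper4.NS
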